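import Pool.Agent.Helper65.EV.Defs
import Pool.Agent.Helper33.EH.COMB

/-!
# Parts ENER, MONO, FACT of EV
-/

set_option autoImplicit false

open Finset

namespace Pool.Agent.Helper61.EV

open Pool.Agent.Helper65.EH (cp rep dset)
open Pool.Agent.Helper65.ET (ind)
open Pool.Agent.Helper33.EH.COMB

/-! ## MONO -/

theorem card_succ (A : Set ℕ) (j n x : ℕ) (hx : x ∈ A) :
    (Ord A j n).card ≤ (Ord A (j + 1) (n + x)).card := by
  classical
  apply card_le_card_of_injOn (fun f => (Fin.cons x f : Fin (j + 1) → ℕ))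
  · intro f hf
    rw [mem_coe, mem_Ord] at hf
    rw [mem_coe, mem_Ord]
    refine ⟨fun i => ?_, ?_⟩
    · refine Fin.cases ?_ (fun i => ?_) i
      · simpa using hx
      · simpa using hf.1 i
    · rw [Fin.sum_univ_succ]
      simp only [Fin.cons_zero, Fin.cons_succ]
      rw [hf.2, add_comm]
  · intro f _ g _ h
    exact (Fin.cons_right_injective (α := fun _ => ℕ) x) h

theorem mono : Pool.Agent.Helper65.EV.S_MONO := by
  intro A h C hC hb j hj n
  by_cases hA : ∃ x, x ∈ A
  · obtain ⟨x, hx⟩ := hA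
    have key : ∀ d j, j + d = h → ∀ n, cp (ind A) j n ≤ C := by
      intro d
      induction d with
      | zero =>
        intro j hj n
        rw [add_zero] at hj
        rw [hj]
        exact hb n
      | succ d ih =>
        intro j hj n
        refine le_trans ?_ (ih (j + 1) (by omega) (n + x))
        rw [cp_eq, cp_eq]
        exact_mod_cast card_succ A j n x hx
    exact key (h - j) j (by omega) n
  · rw [cp_eq]
    have : (Ord A j n).card ≤ 1 := by
      rcases Nat.eq_zero_or_pos j with h0 | h0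
      · subst h0
        exact card_le_one.2 fun f _ g _ => Subsingleton.elim f g
      · have : Ord A j n = ∅ := by
          rw [eq_empty_iff_forall_notMem]
          intro f hf
          rw [mem_Ord] at hf
          exact hA ⟨_, hf.1 ⟨0, h0⟩⟩
        rw [this]
        simp
    have h2 : ((Ord A j n).card : ℝ) ≤ 1 := by exact_mod_cast this
    linarith

/-! ## FACT -/

theorem fact : Pool.Agent.Helper65.EV.S_FACT := by
  intro A j C hC n
  have hcp0 : 0 ≤ cp (ind A) j n := by rw [cp_eq]; positivity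
  have hf : (0 : ℝ) < (j.factorial : ℝ) := by exact_mod_cast j.factorial_pos
  by_cases hn : n ∈ dset A (j - 2)
  · have h1 : ind (dset A (j - 2)) n = 1 := by unfold ind; rw [if_pos hn]
    rw [h1, mul_one]
    have h2 : (j.factorial : ℝ) * cp (ind A) j n ≤ (j.factorial : ℝ) * C :=
      mul_le_mul_of_nonneg_left (hC n) hf.le
    nlinarith [sq_nonneg (cp (ind A) j n)]
  · have h1 : ind (dset A (j - 2)) n = 0 := by unfold ind; rw [if_neg hn]
    rw [h1, mul_zero, add_zero]
    by_cases h2 : 2 ≤ j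
    · have h3 := (Pool.Agent.Helper33.EH.COMB.main A j n).2 h2 hn
      rcases Nat.eq_zero_or_pos (rep A j n) with h0 | h0
      · rw [h0, Nat.cast_zero, mul_zero] at h3
        rw [h3]
        simp
      · have h4 : (1 : ℝ) ≤ (rep A j n : ℝ) := by exact_mod_cast h0
        have h5 : (j.factorial : ℝ) ≤ cp (ind A) j n := by
          rw [h3]
          nlinarith
        rw [sq]
        exact mul_le_mul_of_nonneg_right h5 hcp0
    · have h3 : j.factorial = 1 := by
        interval_cases j <;> rfl
      rw [h3, Nat.cast_one, one_mul, cp_eq]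
      have h4 : (Ord A j n).card ≤ (Ord A j n).card ^ 2 := Nat.le_self_pow (by norm_num) _
      exact_mod_cast h4

/-! ## ENER -/

/-- the pairs of representations with equal first summands -/
noncomputable def Pr (A : Set ℕ) (j n : ℕ) : Finset ((Fin (j + 1) → ℕ) × (Fin (j + 1) → ℕ)) :=
  (Ord A (j + 1) n ×ˢ Ord A (j + 1) n).filter fun q => q.1 0 = q.2 0

theorem card_Pr (A : Set ℕ) (j n : ℕ) :
    ∑ p ∈ HasAntidiagonal.antidiagonal n, ind A p.1 * cp (ind A) j p.2 ^ 2 = (Pr A j n).card := by
  classical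
  have h1 : (Pr A j n).card = ∑ p ∈ HasAntidiagonal.antidiagonal n,
      ((Pr A j n).filter (fun q => (q.1 0, ∑ i, q.1 (Fin.succ i)) = p)).card := by
    apply card_eq_sum_card_fiberwise
    intro q hq
    rw [mem_coe, Pr, mem_filter, mem_product, mem_Ord] at hq
    rw [mem_coe, HasAntidiagonal.mem_antidiagonal]
    have := hq.1.1.2
    rw [Fin.sum_univ_succ] at this
    exact this
  rw [h1]
  push_cast
  refine sum_congr rfl fun p hp => ?_
  have h2 : (Pr A j n).filter (fun q => (q.1 0, ∑ i, q.1 (Fin.succ i)) = p) =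
      ((Ord A (j + 1) n).filter (fun f => (f 0, ∑ i, f (Fin.succ i)) = p)) ×ˢ
        ((Ord A (j + 1) n).filter (fun f => (f 0, ∑ i, f (Fin.succ i)) = p)) := by
    ext q
    simp only [Pr, mem_filter, mem_product]
    constructor
    · rintro ⟨⟨⟨h3, h4⟩, h5⟩, h6⟩
      refine ⟨⟨h3, h6⟩, h4, ?_⟩
      rw [← h6]
      rw [mem_Ord, Fin.sum_univ_succ] at h3 h4
      have h7 := h3.2
      have h8 := h4.2
      rw [← h5]
      rw [← h5] at h8
      have : ∑ i : Fin j, q.2 (Fin.succ i) = ∑ i : Fin j, q.1 (Fin.succ i) := by omega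
      rw [this]
    · rintro ⟨⟨h3, h4⟩, h5, h6⟩
      refine ⟨⟨⟨h3, h5⟩, ?_⟩, h4⟩
      have := h4.trans h6.symm
      exact congrArg Prod.fst this
  rw [h2, card_product]
  push_cast
  have h3 := card_fiber A j n p hp
  rw [h3, cp_eq]
  have h4 : ind A p.1 * ind A p.1 = ind A p.1 := by unfold ind; split_ifs <;> simp
  calc ind A p.1 * ((Ord A j p.2).card : ℝ) ^ 2 =
      (ind A p.1 * ind A p.1) * ((Ord A j p.2).card : ℝ) ^ 2 := by rw [h4]
    _ = _ := by ring

theorem card_Pr_le (A : Set ℕ) (j n : ℕ)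
    (hinj : ∀ f ∈ Ord A (j + 1) n, Function.Injective f) :
    (j + 1) * (Pr A j n).card ≤ (Ord A (j + 1) n).card ^ 2 := by
  classical
  have h1 : (j + 1) * (Pr A j n).card = ((univ : Finset (Fin (j + 1))) ×ˢ Pr A j n).card := by
    rw [card_product, card_univ, Fintype.card_fin]
  rw [h1, sq, ← card_product]
  apply card_le_card_of_injOn (fun r => (r.2.1 ∘ Equiv.swap 0 r.1, r.2.2))
  · rintro ⟨i, f, g⟩ hr
    rw [mem_coe, mem_product, Pr, mem_filter, mem_product] at hr
    rw [mem_coe, mem_product]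
    exact ⟨comp_mem hr.2.1.1 _, hr.2.1.2⟩
  · rintro ⟨i, f, g⟩ hr ⟨i', f', g'⟩ hr' heq
    rw [mem_coe, mem_product, Pr, mem_filter, mem_product] at hr hr'
    simp only [Prod.mk.injEq] at heq
    obtain ⟨h2, rfl⟩ := heq
    have h3 : f 0 = g 0 := hr.2.2
    have h4 : f' 0 = g 0 := hr'.2.2
    have h5 : (f ∘ Equiv.swap 0 i) i = g 0 := by simp [h3]
    have h6 : (f ∘ Equiv.swap 0 i) i' = g 0 := by
      rw [h2]
      simp [h4]
    have h7 : Function.Injective (f ∘ Equiv.swap 0 i) :=
      (hinj f hr.2.1.1).comp (Equiv.swap 0 i).injective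
    have h8 : i = i' := h7 (h5.trans h6.symm)
    subst h8
    have h9 : f = f' := by
      funext x
      have := congrFun h2 (Equiv.swap 0 i x)
      simpa using this
    rw [h9]

theorem ener : Pool.Agent.Helper65.EV.S_ENER := by
  classical
  intro A j C hC n
  rw [card_Pr]
  have hcp : cp (ind A) (j + 1) n = ((Ord A (j + 1) n).card : ℝ) := cp_eq A (j + 1) n
  have hj : (0 : ℝ) < (j : ℝ) + 1 := by positivity
  by_cases hn : n ∈ dset A (j - 1)
  · have h1 : ind (dset A (j - 1)) n = 1 := by unfold ind; rw [if_pos hn]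
    rw [h1, mul_one]
    have h2 : (Pr A j n).card ≤ (Ord A (j + 1) n).card ^ 2 := by
      rw [sq, ← card_product]
      exact card_le_card (filter_subset _ _)
    have h3 : ((Pr A j n).card : ℝ) ≤ ((Ord A (j + 1) n).card : ℝ) ^ 2 := by exact_mod_cast h2
    have h4 : ((Ord A (j + 1) n).card : ℝ) ≤ C := by rw [← hcp]; exact hC n
    have h5 : ((Ord A (j + 1) n).card : ℝ) ^ 2 ≤ C ^ 2 :=
      pow_le_pow_left₀ (by positivity) h4 2
    have h6 : ((j : ℝ) + 1) * ((Pr A j n).card : ℝ) ≤ ((j : ℝ) + 1) * C ^ 2 :=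
      mul_le_mul_of_nonneg_left (h3.trans h5) hj.le
    nlinarith [sq_nonneg (cp (ind A) (j + 1) n)]
  · have h1 : ind (dset A (j - 1)) n = 0 := by unfold ind; rw [if_neg hn]
    rw [h1, mul_zero, add_zero, hcp]
    have h2 : ∀ f ∈ Ord A (j + 1) n, Function.Injective f := by
      intro f hf
      rcases Nat.eq_zero_or_pos j with h0 | h0
      · subst h0
        intro a b _
        exact Fin.ext (by omega)
      · refine injective_of_notMem (h := j + 1) (by omega) ?_ hf
        have : j + 1 - 2 = j - 1 := by omega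
        rwa [this]
    have h3 := card_Pr_le A j n h2
    exact_mod_cast h3

end Pool.Agent.Helper61.EV
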